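import Mathlib
import Pool.Agent.Helper65.OneTape.Lang
import Pool.Agent.Helper65.OneTape.LowerBound
import Pool.Agent.Helper31.OneTape.Small

/-! Deterministic lower bound for the language of `MP_34c247_lc`. -/

namespace Pool.Agent.Helper65.OneTape

open Filter

namespace LV6

/-- bits of one letter -/
def bits : Letter → List Bool
  | .bit v => [false, v]
  | .hash => [true, false]
  | .dol => [true, true]

def encRow (l : List Bool) : List Letter := l.map Letter.bit ++ [Letter.hash]

def encRows (R : List (List Bool)) : List Letter := R.flatMap encRow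

lemma bits_length (l : Letter) : (bits l).length = 2 := by cases l <;> rfl

lemma flatMap_bits_length (L : List Letter) : (L.flatMap bits).length = 2 * L.length := by
  induction L with
  | nil => rfl
  | cons a L ih => simp only [List.flatMap_cons, List.length_append, bits_length, ih,
      List.length_cons]; ring

lemma decode_bits (L : List Letter) (t : List Bool) (ht : t.length ≤ 1) :
    decode (L.flatMap bits ++ t) = L := by
  induction L with
  | nil =>
    match t, ht with
    | [], _ => rfl
    | [a], _ => rfl
  | cons a L ih =>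
    rw [List.flatMap_cons]
    cases a with
    | bit v => simp only [bits, List.cons_append, List.nil_append, decode, letter, ih]
    | hash => simp only [bits, List.cons_append, List.nil_append, decode, letter, ih]
    | dol => simp only [bits, List.cons_append, List.nil_append, decode, letter, ih]

lemma rowsOf_bits (l cur : List Bool) (u : List Letter) :
    rowsOf cur (l.map Letter.bit ++ Letter.hash :: u) = (cur ++ l) :: rowsOf [] u := by
  induction l generalizing cur with
  | nil => simp [rowsOf]
  | cons a l ih =>
    simp only [List.map_cons, List.cons_append, rowsOf]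
    rw [ih]
    simp

lemma rowsOf_encRows (R : List (List Bool)) (u : List Letter) :
    rowsOf [] (encRows R ++ u) = R ++ rowsOf [] u := by
  induction R with
  | nil => rfl
  | cons a R ih =>
    have e : encRows (a :: R) ++ u = a.map Letter.bit ++ Letter.hash :: (encRows R ++ u) := by
      simp [encRows, encRow]
    rw [e, rowsOf_bits, ih]
    rfl

lemma rowsOf_dol (N : ℕ) (cur : List Bool) (u : List Letter) :
    rowsOf cur (List.replicate N Letter.dol ++ u) = rowsOf cur u := by
  induction N with
  | zero => rfl
  | succ N ih => rw [List.replicate_succ, List.cons_append, rowsOf, ih]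

lemma encRows_ne (R : List (List Bool)) : ∀ c ∈ encRows R, c ≠ Letter.dol := by
  intro c hc
  simp only [encRows, List.mem_flatMap, encRow, List.mem_append, List.mem_map,
    List.mem_singleton] at hc
  obtain ⟨l, _, h | h⟩ := hc
  · obtain ⟨a, _, rfl⟩ := h
    simp
  · subst h; simp

def letters (R S : List (List Bool)) (N : ℕ) : List Letter :=
  encRows R ++ (List.replicate N Letter.dol ++ encRows S)

def word (R S : List (List Bool)) (N : ℕ) (t : List Bool) : List Bool :=
  (letters R S N).flatMap bits ++ t

lemma rowsX_word (R S : List (List Bool)) (N : ℕ) (hN : 0 < N) (t : List Bool)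
    (ht : t.length ≤ 1) : rowsX (word R S N t) = R := by
  unfold rowsX word
  rw [decode_bits _ _ ht]
  obtain ⟨M, rfl⟩ : ∃ M, N = M + 1 := ⟨N - 1, by omega⟩
  have h1 : (letters R S (M + 1)).takeWhile (· ≠ Letter.dol) = encRows R := by
    unfold letters
    rw [List.takeWhile_append_of_pos]
    · rw [List.replicate_succ, List.cons_append, List.takeWhile_cons]
      simp
    · intro c hc
      simpa using encRows_ne R c hc
  rw [h1]
  have := rowsOf_encRows R []
  simpa [rowsOf] using this

lemma rowsY_word (R S : List (List Bool)) (N : ℕ) (hN : 0 < N) (t : List Bool)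
    (ht : t.length ≤ 1) : rowsY (word R S N t) = S := by
  unfold rowsY word
  rw [decode_bits _ _ ht]
  obtain ⟨M, rfl⟩ : ∃ M, N = M + 1 := ⟨N - 1, by omega⟩
  have h1 : (letters R S (M + 1)).dropWhile (· ≠ Letter.dol) =
      List.replicate (M + 1) Letter.dol ++ encRows S := by
    unfold letters
    rw [List.dropWhile_append_of_pos]
    · rw [List.replicate_succ, List.cons_append, List.dropWhile_cons]
      simp
    · intro c hc
      simpa using encRows_ne R c hc
  rw [h1, rowsOf_dol]
  have := rowsOf_encRows S []
  simpa [rowsOf] using this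

/-- the list of rows of a triangular array -/
def rows {r : ℕ} (x : (i : Fin r) → Fin (i.1 + 1) → Bool) : List (List Bool) :=
  List.ofFn fun i => List.ofFn (x i)

lemma rows_lengths {r : ℕ} (x : (i : Fin r) → Fin (i.1 + 1) → Bool) :
    (rows x).map List.length = List.range' 1 r := by
  apply List.ext_getElem
  · simp [rows]
  · intro i h1 h2
    simp [rows, add_comm]

lemma rows_zip {r : ℕ} (x y : (i : Fin r) → Fin (i.1 + 1) → Bool) :
    (∃ p ∈ (rows x).zip (rows y), p.1 = p.2) ↔ ∃ i, x i = y i := by
  constructor
  · rintro ⟨p, hp, he⟩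
    obtain ⟨i, hi, rfl⟩ := List.mem_iff_getElem.mp hp
    rw [List.getElem_zip] at he
    simp only [rows, List.getElem_ofFn] at he
    exact ⟨_, List.ofFn_injective he⟩
  · rintro ⟨i, hi⟩
    refine ⟨(List.ofFn (x i), List.ofFn (y i)), ?_, by simp [hi]⟩
    rw [List.mem_iff_getElem]
    have hl : i.1 < ((rows x).zip (rows y)).length := by simp [rows]
    refine ⟨i.1, hl, ?_⟩
    rw [List.getElem_zip]
    simp [rows]

lemma word_mem {r : ℕ} (x y : (i : Fin r) → Fin (i.1 + 1) → Bool) (N : ℕ) (hN : 0 < N)
    (t : List Bool) (ht : t.length ≤ 1) :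
    word (rows x) (rows y) N t ∈ Lang ↔ ∃ i, x i = y i := by
  rw [← rows_zip]
  constructor
  · rintro ⟨s, _, _, h⟩
    rwa [rowsX_word _ _ _ hN _ ht, rowsY_word _ _ _ hN _ ht] at h
  · intro h
    refine ⟨r, ?_, ?_, ?_⟩
    · rw [rowsX_word _ _ _ hN _ ht, rows_lengths]
    · rw [rowsY_word _ _ _ hN _ ht, rows_lengths]
    · rwa [rowsX_word _ _ _ hN _ ht, rowsY_word _ _ _ hN _ ht]

lemma encRows_length (R : List (List Bool)) :
    (encRows R).length = (R.map fun l => l.length + 1).sum := by
  simp [encRows, encRow, List.length_flatMap]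

lemma sum_range'_aux (r : ℕ) : ((List.range' 1 r).map (· + 1)).sum * 2 = r * (r + 3) := by
  induction r with
  | zero => rfl
  | succ r ih =>
    rw [List.range'_concat, List.map_append, List.sum_append, add_mul, ih]
    simp
    ring

lemma encRows_rows_length {r : ℕ} (x : (i : Fin r) → Fin (i.1 + 1) → Bool) :
    2 * (encRows (rows x)).length = r * (r + 3) := by
  rw [encRows_length, ← sum_range'_aux r, ← rows_lengths x, List.map_map, mul_comm]
  rfl

lemma word_length {r : ℕ} (x y : (i : Fin r) → Fin (i.1 + 1) → Bool) (N : ℕ)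
    (t : List Bool) : (word (rows x) (rows y) N t).length = 2 * (r * (r + 3) + N) + t.length := by
  unfold word letters
  rw [List.length_append, flatMap_bits_length, List.length_append, List.length_append,
    List.length_replicate]
  have h1 := encRows_rows_length x
  have h2 := encRows_rows_length y
  omega

lemma cell_left {r : ℕ} (x y y' : (i : Fin r) → Fin (i.1 + 1) → Bool) (N : ℕ)
    (t : List Bool) (z : ℤ) (hz : z < ((r * (r + 3) : ℕ) : ℤ) + 2 * N) :
    cell (word (rows x) (rows y) N t) z = cell (word (rows x) (rows y') N t) z := by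
  unfold cell
  by_cases h0 : 0 ≤ z
  · rw [if_pos h0, if_pos h0]
    have e : ∀ y : (i : Fin r) → Fin (i.1 + 1) → Bool, word (rows x) (rows y) N t =
        (encRows (rows x) ++ List.replicate N Letter.dol).flatMap bits ++
          ((encRows (rows y)).flatMap bits ++ t) := by
      intro y
      simp [word, letters, List.flatMap_append, List.append_assoc]
    have hlen : z.toNat <
        ((encRows (rows x) ++ List.replicate N Letter.dol).flatMap bits).length := by
      rw [flatMap_bits_length, List.length_append, List.length_replicate]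
      have h1 := encRows_rows_length x
      omega
    rw [e y, e y', List.getElem?_append_left hlen, List.getElem?_append_left hlen]
  · rw [if_neg h0, if_neg h0]

lemma cell_right {r : ℕ} (x x' y : (i : Fin r) → Fin (i.1 + 1) → Bool) (N : ℕ)
    (t : List Bool) (z : ℤ) (hz : ((r * (r + 3) : ℕ) : ℤ) ≤ z) :
    cell (word (rows x) (rows y) N t) z = cell (word (rows x') (rows y) N t) z := by
  unfold cell
  have h0 : 0 ≤ z := le_trans (by positivity) hz
  rw [if_pos h0, if_pos h0]
  have e : ∀ x : (i : Fin r) → Fin (i.1 + 1) → Bool, word (rows x) (rows y) N t =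
      (encRows (rows x)).flatMap bits ++
        ((List.replicate N Letter.dol ++ encRows (rows y)).flatMap bits ++ t) := by
    intro x
    simp [word, letters, List.flatMap_append, List.append_assoc]
  have hlen : ∀ x : (i : Fin r) → Fin (i.1 + 1) → Bool,
      ((encRows (rows x)).flatMap bits).length = r * (r + 3) := by
    intro x
    rw [flatMap_bits_length, encRows_rows_length]
  have k : ∀ x : (i : Fin r) → Fin (i.1 + 1) → Bool, (word (rows x) (rows y) N t)[z.toNat]? =
      ((List.replicate N Letter.dol ++ encRows (rows y)).flatMap bits ++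
        t)[z.toNat - r * (r + 3)]? := by
    intro x
    rw [e x, List.getElem?_append_right (by rw [hlen]; omega), hlen]
  rw [k x, k x']

end LV6

open Classical in
/-- Packet LV6 without the asymptotics. -/
theorem lower_fin (Q Γ : ℕ → Type) [∀ n, Fintype (Q n)]
    (tape : ∀ n, ℤ → Option Bool → Γ n) (q₀ : ∀ n, Q n)
    (δ : ∀ n, ℕ → Q n → Γ n → Q n × Γ n × SignType) (out : ∀ n, Q n → Option Bool) (T : ℕ → ℕ)
    (h : ∀ w : List Bool, out w.length (run (out w.length) (δ w.length)
      (q₀ w.length, 0, fun z => tape w.length z (cell w z)) (T w.length)).1 =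
        some (decide (w ∈ Lang))) (n r N : ℕ) (hN : 0 < N) (hn : r * (r + 3) + N = n / 2) :
    2 ^ (r * (r + 1) / 2) ≤ N ^ 2 * (T n * Fintype.card (Q n) + 1) ^ (2 * (T n / N)) := by
  set t : List Bool := List.replicate (n % 2) false with ht
  have ht1 : t.length ≤ 1 := by rw [ht, List.length_replicate]; omega
  have hlen : ∀ x y : (i : Fin r) → Fin (i.1 + 1) → Bool,
      (LV6.word (LV6.rows x) (LV6.rows y) N t).length = n := by
    intro x y
    rw [LV6.word_length, hn, ht, List.length_replicate]
    omega
  have key := rank_le (X := (i : Fin r) → Fin (i.1 + 1) → Bool)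
    (Y := (i : Fin r) → Fin (i.1 + 1) → Bool) (out n) (δ n) (q₀ n)
    (fun x y z => tape n z (cell (LV6.word (LV6.rows x) (LV6.rows y) N t) z))
    ((r * (r + 3) : ℕ) : ℤ) N (T n) (by positivity) hN
    (fun x y y' z hz => by simp only [LV6.cell_left x y y' N t z hz])
    (fun x x' y z hz => by simp only [LV6.cell_right x x' y N t z hz])
    (fun x y => decide (LV6.word (LV6.rows x) (LV6.rows y) N t ∈ Lang))
    (fun x y => by
      have := h (LV6.word (LV6.rows x) (LV6.rows y) N t)
      rw [hlen x y] at this
      exact this) false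
  have hrank := Pool.Agent.Helper31.OneTape.rank_lne r
  have hM : (Matrix.of fun (x y : (i : Fin r) → Fin (i.1 + 1) → Bool) =>
      if (decide (LV6.word (LV6.rows x) (LV6.rows y) N t ∈ Lang)) = false then (1 : ℚ) else 0) =
      Matrix.of fun (x y : (i : Fin r) → Fin (i.1 + 1) → Bool) =>
        if ∀ i, x i ≠ y i then (1 : ℚ) else 0 := by
    ext x y
    simp only [Matrix.of_apply]
    congr 1
    rw [decide_eq_false_iff_not, LV6.word_mem x y N hN t ht1, not_exists]
  rw [hM, hrank] at key
  exact key

open Classical in
/-- Packet LV6, with the asymptotics (packet LV3') as a hypothesis. -/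
theorem lower_of_asymp (asymp' : ∀ (T q : ℕ → ℕ) (d : ℕ), (∀ n, q n ≤ (n + 2) ^ d) →
      (∀ n r N : ℕ, 0 < N → r * (r + 3) + N = n / 2 →
        2 ^ (r * (r + 1) / 2) ≤ N ^ 2 * (T n * q n + 1) ^ (2 * (T n / N))) →
      ∃ c : ℝ, 0 < c ∧ ∀ᶠ n : ℕ in atTop, c * (n : ℝ) ^ 2 / Real.log n ≤ T n)
    (Q Γ : ℕ → Type) [∀ n, Fintype (Q n)] (d : ℕ)
    (hQ : ∀ n, Fintype.card (Q n) ≤ (n + 2) ^ d)
    (tape : ∀ n, ℤ → Option Bool → Γ n) (q₀ : ∀ n, Q n)
    (δ : ∀ n, ℕ → Q n → Γ n → Q n × Γ n × SignType) (out : ∀ n, Q n → Option Bool) (T : ℕ → ℕ)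
    (h : ∀ w : List Bool, out w.length (run (out w.length) (δ w.length)
      (q₀ w.length, 0, fun z => tape w.length z (cell w z)) (T w.length)).1 =
        some (decide (w ∈ Lang))) :
    ∃ c : ℝ, 0 < c ∧ ∀ᶠ n : ℕ in atTop, c * (n : ℝ) ^ 2 / Real.log n ≤ T n :=
  asymp' T (fun n => Fintype.card (Q n)) d hQ
    (lower_fin Q Γ tape q₀ δ out T h)

end Pool.Agent.Helper65.OneTape
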